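import Pool.Agent.S4Nut.Solve

set_option autoImplicit false

namespace Pool.Agent.S4Nut

open Set Filter Topology Pool.Agent.H8S4

/-- The metric `dt^2 + sum_i (a i)^2 (sigma_i)^2` on `(0,T) x SU(2)` closes up to a metric on the
4-sphere by two fixed points, one at each end. -/
structure ClosesUp (a : Fin 3 → ℝ → ℝ) (T : ℝ) : Prop where
  pos_T : 0 < T
  smooth : ∀ i, ContDiff ℝ 2 (a i)
  pos : ∀ i, ∀ t ∈ Ioo 0 T, 0 < a i t
  left : ∀ i, a i 0 = 0 ∧ deriv (a i) 0 = 1 / 2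
  right : ∀ i, a i T = 0 ∧ deriv (a i) T = -(1 / 2)

theorem main (a : Fin 3 → ℝ → ℝ) (T L : ℝ) (hc : ClosesUp a T) (hE : IsEinstein a T L) :
    ∃ ρ : ℝ, 0 < ρ ∧ L = 3 / ρ ^ 2 ∧ T = ρ * Real.pi ∧
      ∀ t ∈ Icc 0 T, ∀ i, a i t = ρ / 2 * Real.sin (t / ρ) := by
  have hd : ∀ i t, DifferentiableAt ℝ (a i) t := fun i t =>
    ((hc.smooth i).differentiable (by norm_num)) t
  have hd' : ∀ i t, DifferentiableAt ℝ (deriv (a i)) t := fun i t =>
    (((hc.smooth i).deriv' : ContDiff ℝ 1 (deriv (a i))).differentiable (by norm_num)) t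
  have hn : ∀ t ∈ Ioo 0 T, ∀ i, a i t ≠ 0 := fun t ht i => (hc.pos i t ht).ne'
  have q0 : ∀ t ∈ Ioo 0 T, EinA (a 0) (a 1) (a 2) L t := by
    intro t ht
    have h1 := ric_some0 a t (hn t ht) (fun i => hd i t) (fun i => hd' i t)
    rw [hE t ht, if_pos rfl] at h1
    have n0 := hn t ht 0
    unfold EinA
    have h2 : deriv (deriv (a 0)) t = a 0 t * (deriv (deriv (a 0)) t / a 0 t) := by
      field_simp
    rw [h2]
    have h3 : deriv (deriv (a 0)) t / a 0 t = rr (a 0) (a 1) (a 2) t - L -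
      deriv (a 0) t / a 0 t * (deriv (a 1) t / a 1 t + deriv (a 2) t / a 2 t) := by linarith
    rw [h3]
    field_simp
    ring
  have q1 : ∀ t ∈ Ioo 0 T, EinA (a 1) (a 2) (a 0) L t := by
    intro t ht
    have h1 := ric_some1 a t (hn t ht) (fun i => hd i t) (fun i => hd' i t)
    rw [hE t ht, if_pos rfl] at h1
    have n0 := hn t ht 1
    unfold EinA
    have h2 : deriv (deriv (a 1)) t = a 1 t * (deriv (deriv (a 1)) t / a 1 t) := by
      field_simp
    rw [h2]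
    have h3 : deriv (deriv (a 1)) t / a 1 t = rr (a 1) (a 2) (a 0) t - L -
      deriv (a 1) t / a 1 t * (deriv (a 2) t / a 2 t + deriv (a 0) t / a 0 t) := by linarith
    rw [h3]
    field_simp
    ring
  have q2 : ∀ t ∈ Ioo 0 T, EinA (a 2) (a 0) (a 1) L t := by
    intro t ht
    have h1 := ric_some2 a t (hn t ht) (fun i => hd i t) (fun i => hd' i t)
    rw [hE t ht, if_pos rfl] at h1
    have n0 := hn t ht 2
    unfold EinA
    have h2 : deriv (deriv (a 2)) t = a 2 t * (deriv (deriv (a 2)) t / a 2 t) := by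
      field_simp
    rw [h2]
    have h3 : deriv (deriv (a 2)) t / a 2 t = rr (a 2) (a 0) (a 1) t - L -
      deriv (a 2) t / a 2 t * (deriv (a 0) t / a 0 t + deriv (a 1) t / a 1 t) := by linarith
    rw [h3]
    field_simp
    ring
  have q3 : ∀ t ∈ Ioo 0 T, EinC (a 0) (a 1) (a 2) L t := by
    intro t ht
    have r0 := ric_some0 a t (hn t ht) (fun i => hd i t) (fun i => hd' i t)
    have r1 := ric_some1 a t (hn t ht) (fun i => hd i t) (fun i => hd' i t)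
    have r2 := ric_some2 a t (hn t ht) (fun i => hd i t) (fun i => hd' i t)
    have rn := ric_none a t (hn t ht) (fun i => hd i t) (fun i => hd' i t)
    rw [hE t ht, if_pos rfl] at r0 r1 r2 rn
    unfold EinC
    have s1 : deriv (a 0) t * deriv (a 1) t / (a 0 t * a 1 t) =
      deriv (a 0) t / a 0 t * (deriv (a 1) t / a 1 t) := by rw [div_mul_div_comm]
    have s2 : deriv (a 1) t * deriv (a 2) t / (a 1 t * a 2 t) =
      deriv (a 1) t / a 1 t * (deriv (a 2) t / a 2 t) := by rw [div_mul_div_comm]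
    have s3 : deriv (a 2) t * deriv (a 0) t / (a 2 t * a 0 t) =
      deriv (a 2) t / a 2 t * (deriv (a 0) t / a 0 t) := by rw [div_mul_div_comm]
    rw [s1, s2, s3]
    linear_combination -r0 - r1 - r2 + rn
  obtain ⟨ρ, h1, h2, h3, h4⟩ := (NData.mk (hc.smooth 0) (hc.smooth 1) (hc.smooth 2) hc.pos_T
    (hc.pos 0) (hc.pos 1) (hc.pos 2) q0 q1 q2 q3 (hc.left 0).1 (hc.left 1).1 (hc.left 2).1
    (hc.left 0).2 (hc.left 1).2 (hc.left 2).2 (hc.right 0).1 (hc.right 1).1 (hc.right 2).1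
    (hc.right 0).2 (hc.right 1).2 (hc.right 2).2).solve
  refine ⟨ρ, h1, h2, h3, fun t ht i => ?_⟩
  obtain ⟨g0, g1, g2⟩ := h4 t ht
  fin_cases i
  exacts [g0, g1, g2]

theorem alg (ρ s k : ℝ) (hρ : 0 < ρ) (hs : 0 < s) (h : s ^ 2 + k ^ 2 = 1) :
    ((ρ / 2 * s) ^ 4 - ((ρ / 2 * s) ^ 2 - (ρ / 2 * s) ^ 2) ^ 2) /
      (2 * (ρ / 2 * s) ^ 2 * (ρ / 2 * s) ^ 2 * (ρ / 2 * s) ^ 2) -
      (-(1 / (2 * ρ)) * s) / (ρ / 2 * s) - (1 / 2 * k) / (ρ / 2 * s) *
      ((1 / 2 * k) / (ρ / 2 * s) + (1 / 2 * k) / (ρ / 2 * s)) = 3 / ρ ^ 2 := by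
  have hk : k ^ 2 = 1 - s ^ 2 := by linarith
  field_simp
  rw [hk]
  ring

theorem algn (ρ s : ℝ) (hρ : 0 < ρ) (hs : 0 < s) :
    -((-(1 / (2 * ρ)) * s) / (ρ / 2 * s) + (-(1 / (2 * ρ)) * s) / (ρ / 2 * s) +
      (-(1 / (2 * ρ)) * s) / (ρ / 2 * s)) = 3 / ρ ^ 2 := by
  field_simp
  norm_num

theorem conv (a : Fin 3 → ℝ → ℝ) (T ρ : ℝ) (hρ : 0 < ρ) (hT : T = ρ * Real.pi)
    (h : ∀ t ∈ Icc 0 T, ∀ i, a i t = ρ / 2 * Real.sin (t / ρ)) : IsEinstein a T (3 / ρ ^ 2) := by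
  intro t ht j k
  by_cases hjk : j = k
  swap
  · rw [if_neg hjk, ric_off a t j k hjk]
  subst hjk
  rw [if_pos rfl]
  have d0 : ∀ r : ℝ, HasDerivAt (fun r => r / ρ) (1 / ρ) r := fun r => (hasDerivAt_id r).div_const ρ
  have jj : ∀ i, _ := fun i => jets (f := a i) (F := fun r => ρ / 2 * Real.sin (r / ρ))
    (F' := fun r => 1 / 2 * Real.cos (r / ρ)) (F'' := fun r => -(1 / (2 * ρ)) * Real.sin (r / ρ)) ht
    (fun r hr => h r hr i)
    (fun r => by
      refine (((d0 r).sin).const_mul (ρ / 2)).congr_deriv ?_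
      field_simp)
    (fun r => by
      refine (((d0 r).cos).const_mul (1 / 2)).congr_deriv ?_
      field_simp)
  have hθ0 : 0 < t / ρ := div_pos ht.1 hρ
  have hθ1 : t / ρ < Real.pi := by
    rw [div_lt_iff₀ hρ]
    have := ht.2
    rw [hT] at this
    linarith
  have s0 : 0 < Real.sin (t / ρ) := Real.sin_pos_of_pos_of_lt_pi hθ0 hθ1
  have hsc : Real.sin (t / ρ) ^ 2 + Real.cos (t / ρ) ^ 2 = 1 := Real.sin_sq_add_cos_sq _
  have hd : ∀ i, DifferentiableAt ℝ (a i) t := fun i => (jj i).1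
  have hd' : ∀ i, DifferentiableAt ℝ (deriv (a i)) t := fun i => (jj i).2.1
  have v : ∀ i, a i t = ρ / 2 * Real.sin (t / ρ) := fun i => (jj i).2.2.1
  have w : ∀ i, deriv (a i) t = 1 / 2 * Real.cos (t / ρ) := fun i => (jj i).2.2.2.1
  have z : ∀ i, deriv (deriv (a i)) t = -(1 / (2 * ρ)) * Real.sin (t / ρ) :=
    fun i => (jj i).2.2.2.2
  have hn : ∀ i, a i t ≠ 0 := by
    intro i
    rw [v]
    positivity
  rcases j with _ | j
  · rw [ric_none a t hn hd hd', v, v, v, z, z, z]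
    exact algn ρ _ hρ s0
  · fin_cases j
    · simp only [Fin.zero_eta]
      rw [ric_some0 a t hn hd hd', w, w, w, z]
      unfold rr
      rw [v, v, v]
      exact alg ρ _ _ hρ s0 hsc
    · simp only [Fin.mk_one]
      rw [ric_some1 a t hn hd hd', w, w, w, z]
      unfold rr
      rw [v, v, v]
      exact alg ρ _ _ hρ s0 hsc
    · simp only [Fin.reduceFinMk]
      rw [ric_some2 a t hn hd hd', w, w, w, z]
      unfold rr
      rw [v, v, v]
      exact alg ρ _ _ hρ s0 hsc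

theorem closesUp_round (ρ : ℝ) (hρ : 0 < ρ) :
    ClosesUp (fun _ t => ρ / 2 * Real.sin (t / ρ)) (ρ * Real.pi) := by
  have hpi := Real.pi_pos
  have d0 : ∀ r : ℝ, HasDerivAt (fun r => r / ρ) (1 / ρ) r := fun r => (hasDerivAt_id r).div_const ρ
  have g0 : ∀ t, HasDerivAt (fun t => ρ / 2 * Real.sin (t / ρ)) (1 / 2 * Real.cos (t / ρ)) t :=
    fun t => by
      refine (((d0 t).sin).const_mul (ρ / 2)).congr_deriv ?_
      field_simp
  have hT : ρ * Real.pi / ρ = Real.pi := by field_simp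
  refine ⟨by positivity, fun i => by fun_prop, fun i t ht => ?_, fun i => ⟨?_, ?_⟩,
    fun i => ⟨?_, ?_⟩⟩
  · have hθ0 : 0 < t / ρ := div_pos ht.1 hρ
    have hθ1 : t / ρ < Real.pi := by
      rw [div_lt_iff₀ hρ]
      have := ht.2
      linarith
    exact mul_pos (by positivity) (Real.sin_pos_of_pos_of_lt_pi hθ0 hθ1)
  · show ρ / 2 * Real.sin (0 / ρ) = 0
    simp
  · rw [(g0 0).deriv]; simp
  · show ρ / 2 * Real.sin (ρ * Real.pi / ρ) = 0
    rw [hT]; simp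
  · rw [(g0 _).deriv, hT, Real.cos_pi]; ring

end Pool.Agent.S4Nut
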