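import Pool.Agent.H8S4.Conv2

/-!
`SU(2)`-invariant Einstein metrics near a fixed point: the self-dual half of the Weyl curvature
vanishes.
-/

set_option autoImplicit false

namespace Pool.Agent.S4Nut

open Set Filter Topology Pool.Agent.H8S4

/-- Einstein data on `[0,T]` with a fixed point at both ends. -/
structure NData (a b c : ℝ → ℝ) (T L : ℝ) : Prop where
  cA : ContDiff ℝ 2 a
  cB : ContDiff ℝ 2 b
  cC : ContDiff ℝ 2 c
  hT : 0 < T
  ap : ∀ t ∈ Ioo 0 T, 0 < a t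
  bp : ∀ t ∈ Ioo 0 T, 0 < b t
  cp : ∀ t ∈ Ioo 0 T, 0 < c t
  eA : ∀ t ∈ Ioo 0 T, EinA a b c L t
  eB : ∀ t ∈ Ioo 0 T, EinA b c a L t
  eC : ∀ t ∈ Ioo 0 T, EinA c a b L t
  e0 : ∀ t ∈ Ioo 0 T, EinC a b c L t
  a0 : a 0 = 0
  b0 : b 0 = 0
  c0 : c 0 = 0
  a1 : deriv a 0 = 1 / 2
  b1 : deriv b 0 = 1 / 2
  c1 : deriv c 0 = 1 / 2
  aT : a T = 0
  bT : b T = 0
  cT : c T = 0
  aT1 : deriv a T = -(1 / 2)
  bT1 : deriv b T = -(1 / 2)
  cT1 : deriv c T = -(1 / 2)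

variable {a b c : ℝ → ℝ} {T L : ℝ}

theorem NData.rot (h : NData a b c T L) : NData b c a T L :=
  ⟨h.cB, h.cC, h.cA, h.hT, h.bp, h.cp, h.ap, h.eB, h.eC, h.eA, fun t ht => (h.e0 t ht).rot,
    h.b0, h.c0, h.a0, h.b1, h.c1, h.a1, h.bT, h.cT, h.aT, h.bT1, h.cT1, h.aT1⟩

theorem NData.mirror (h : NData a b c T L) :
    NData (fun t => a (T - t)) (fun t => b (T - t)) (fun t => c (T - t)) T L where
  cA := h.cA.comp (contDiff_const.sub contDiff_id)
  cB := h.cB.comp (contDiff_const.sub contDiff_id)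
  cC := h.cC.comp (contDiff_const.sub contDiff_id)
  hT := h.hT
  ap t ht := h.ap (T - t) ⟨by linarith [ht.2], by linarith [ht.1]⟩
  bp t ht := h.bp (T - t) ⟨by linarith [ht.2], by linarith [ht.1]⟩
  cp t ht := h.cp (T - t) ⟨by linarith [ht.2], by linarith [ht.1]⟩
  eA t ht := (h.eA (T - t) ⟨by linarith [ht.2], by linarith [ht.1]⟩).mirror
  eB t ht := (h.eB (T - t) ⟨by linarith [ht.2], by linarith [ht.1]⟩).mirror
  eC t ht := (h.eC (T - t) ⟨by linarith [ht.2], by linarith [ht.1]⟩).mirror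
  e0 t ht := (h.e0 (T - t) ⟨by linarith [ht.2], by linarith [ht.1]⟩).mirror
  a0 := by simpa using h.aT
  b0 := by simpa using h.bT
  c0 := by simpa using h.cT
  a1 := by rw [deriv_mirror]; simp [h.aT1]
  b1 := by rw [deriv_mirror]; simp [h.bT1]
  c1 := by rw [deriv_mirror]; simp [h.cT1]
  aT := by simpa using h.a0
  bT := by simpa using h.b0
  cT := by simpa using h.c0
  aT1 := by rw [deriv_mirror]; simp [h.a1]
  bT1 := by rw [deriv_mirror]; simp [h.b1]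
  cT1 := by rw [deriv_mirror]; simp [h.c1]

theorem NData.xsys (h : NData a b c T L) {s : ℝ} (hs : s = 1 ∨ s = -1) :
    XSys s a b c (xx s a b c) (xx s b c a) (xx s c a b) T := by
  have hd : ∀ f : ℝ → ℝ, ContDiff ℝ 2 f → ∀ t, DifferentiableAt ℝ f t := fun f hf t =>
    (hf.differentiable (by norm_num)) t
  have hd' : ∀ f : ℝ → ℝ, ContDiff ℝ 2 f → ∀ t, DifferentiableAt ℝ (deriv f) t := fun f hf t =>
    ((hf.deriv' : ContDiff ℝ 1 (deriv f)).differentiable (by norm_num)) t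
  have hs2 : s * s = 1 := by rcases hs with rfl | rfl <;> norm_num
  have hda : ∀ (f g k : ℝ → ℝ), ContDiff ℝ 2 f → ∀ t,
      HasDerivAt f (s * (xx s f g k t - cc f g k t)) t := by
    intro f g k hf t
    have e : s * (xx s f g k t - cc f g k t) = deriv f t := by
      unfold xx
      linear_combination (deriv f t) * hs2
    rw [e]
    exact (hd f hf t).hasDerivAt
  refine ⟨h.ap, h.bp, h.cp, fun t _ => hda a b c h.cA t, fun t _ => hda b c a h.cB t,
    fun t _ => hda c a b h.cC t, ?_, ?_, ?_⟩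
  · intro t ht
    exact deriv_xx hs (hd a h.cA t) (hd' a h.cA t) (hd b h.cB t) (hd c h.cC t)
      (h.ap t ht).ne' (h.bp t ht).ne' (h.cp t ht).ne' (h.eA t ht) (h.e0 t ht)
  · intro t ht
    exact deriv_xx hs (hd b h.cB t) (hd' b h.cB t) (hd c h.cC t) (hd a h.cA t)
      (h.bp t ht).ne' (h.cp t ht).ne' (h.ap t ht).ne' (h.eB t ht) (h.e0 t ht).rot
  · intro t ht
    exact deriv_xx hs (hd c h.cC t) (hd' c h.cC t) (hd a h.cA t) (hd b h.cB t)
      (h.cp t ht).ne' (h.ap t ht).ne' (h.bp t ht).ne' (h.eC t ht) (h.e0 t ht).rot.rot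

/-- `f t / t → 1/2`. -/
theorem tendsto_ratio {f : ℝ → ℝ} (hf : ContDiff ℝ 2 f) (h0 : f 0 = 0) (h1 : deriv f 0 = 1 / 2) :
    Tendsto (fun t => f t / t) (𝓝[>] 0) (𝓝 (1 / 2)) := by
  have hd : HasDerivAt f (1 / 2) 0 := by
    rw [← h1]
    exact ((hf.differentiable (by norm_num)) 0).hasDerivAt
  have h2 := hasDerivAt_iff_tendsto_slope.1 hd
  have h3 : Tendsto (slope f 0) (𝓝[>] 0) (𝓝 (1 / 2)) :=
    h2.mono_left (nhdsWithin_mono _ (fun x hx => ne_of_gt hx))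
  refine h3.congr fun t => ?_
  rw [slope_def_field, h0]
  ring

theorem tendsto_deriv {f : ℝ → ℝ} (hf : ContDiff ℝ 2 f) (h1 : deriv f 0 = 1 / 2) :
    Tendsto (deriv f) (𝓝[>] 0) (𝓝 (1 / 2)) := by
  have hc : Continuous (deriv f) := (hf.deriv' : ContDiff ℝ 1 (deriv f)).continuous
  have h := hc.tendsto 0
  rw [h1] at h
  exact h.mono_left nhdsWithin_le_nhds

theorem cc_div (a b c : ℝ → ℝ) (t : ℝ) (ht : t ≠ 0) :
    cc a b c t = ((b t / t) ^ 2 + (c t / t) ^ 2 - (a t / t) ^ 2) / (2 * (b t / t) * (c t / t)) := by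
  unfold cc
  have e1 : (b t / t) ^ 2 + (c t / t) ^ 2 - (a t / t) ^ 2 =
    ((b t) ^ 2 + (c t) ^ 2 - (a t) ^ 2) / t ^ 2 := by field_simp
  have e2 : 2 * (b t / t) * (c t / t) = (2 * b t * c t) / t ^ 2 := by field_simp
  rw [e1, e2, div_div_div_cancel_right₀ (pow_ne_zero 2 ht)]

/-- The self-dual connection components tend to `1` at a fixed point. -/
theorem NData.x1 (h : NData a b c T L) : Tendsto (xx 1 a b c) (𝓝[>] 0) (𝓝 1) := by
  have ra := tendsto_ratio h.cA h.a0 h.a1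
  have rb := tendsto_ratio h.cB h.b0 h.b1
  have rc := tendsto_ratio h.cC h.c0 h.c1
  have hcc : Tendsto (cc a b c) (𝓝[>] 0) (𝓝 (((1 / 2 : ℝ) ^ 2 + (1 / 2) ^ 2 - (1 / 2) ^ 2) /
      (2 * (1 / 2) * (1 / 2)))) := by
    refine Tendsto.congr' ?_ ((((rb.pow 2).add (rc.pow 2)).sub (ra.pow 2)).div
      ((rb.const_mul 2).mul rc) (by norm_num))
    filter_upwards [self_mem_nhdsWithin] with t ht
    exact (cc_div a b c t (ne_of_gt ht)).symm
  have h2 := ((tendsto_deriv h.cA h.a1).const_mul 1).add hcc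
  have e : (1 : ℝ) * (1 / 2) + ((1 / 2 : ℝ) ^ 2 + (1 / 2) ^ 2 - (1 / 2) ^ 2) /
      (2 * (1 / 2) * (1 / 2)) = 1 := by norm_num
  rw [e] at h2
  exact h2

/-- `t^2 p → 0`. -/
theorem NData.t2p (h : NData a b c T L) :
    Tendsto (fun t => t ^ 2 * pp b c (xx 1 a b c) (xx 1 b c a) (xx 1 c a b) t) (𝓝[>] 0) (𝓝 0) := by
  have rb := tendsto_ratio h.cB h.b0 h.b1
  have rc := tendsto_ratio h.cC h.c0 h.c1
  have hx := h.x1
  have hy := h.rot.x1
  have hz := h.rot.rot.x1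
  have h1 := (hx.sub (hy.mul hz)).div (rb.mul rc) (by norm_num)
  have e : ((1 : ℝ) - 1 * 1) / (1 / 2 * (1 / 2)) = 0 := by norm_num
  rw [e] at h1
  refine h1.congr' ?_
  filter_upwards [self_mem_nhdsWithin] with t ht
  have ht' : t ≠ 0 := ne_of_gt ht
  simp only [pp, Pi.div_apply, Pi.mul_apply, Pi.sub_apply]
  have e2 : b t / t * (c t / t) = (b t * c t) / t ^ 2 := by field_simp
  rw [e2, div_div_eq_mul_div, mul_comm, ← mul_div_assoc]

/-- `t x / a → 2`. -/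
theorem NData.tx (h : NData a b c T L) :
    Tendsto (fun t => t * (xx 1 a b c t / a t)) (𝓝[>] 0) (𝓝 2) := by
  have ra := tendsto_ratio h.cA h.a0 h.a1
  have h1 := h.x1.div ra (by norm_num)
  have e : (1 : ℝ) / (1 / 2) = 2 := by norm_num
  rw [e] at h1
  refine h1.congr' ?_
  filter_upwards [self_mem_nhdsWithin] with t ht
  have ht' : t ≠ 0 := ne_of_gt ht
  simp only [Pi.div_apply]
  rw [div_div_eq_mul_div, mul_comm, mul_div_assoc]

end Pool.Agent.S4Nut
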