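import Pool.Agent.S4Nut.Core

set_option autoImplicit false

namespace Pool.Agent.S4Nut

open Set Filter Topology Pool.Agent.H8S4

noncomputable section

/-- The norm of the (self-dual) Weyl curvature. -/
def FF (a b c x y z : ℝ → ℝ) (L t : ℝ) : ℝ :=
  (pp b c x y z t - L / 3) ^ 2 + (pp c a y z x t - L / 3) ^ 2 + (pp a b z x y t - L / 3) ^ 2

end

variable {a b c x y z : ℝ → ℝ} {T L : ℝ}

theorem dFF (h : XSys 1 a b c x y z T) {t : ℝ} (ht : t ∈ Ioo 0 T) :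
    HasDerivAt (FF a b c x y z L)
      (-2 * ((pp b c x y z t - pp c a y z x t) ^ 2 * (z t / c t) +
        (pp c a y z x t - pp a b z x y t) ^ 2 * (x t / a t) +
        (pp a b z x y t - pp b c x y z t) ^ 2 * (y t / b t))) t := by
  have h1 := ((((h.dp ht).sub_const (L / 3)).pow 2).add
    (((h.rot.dp ht).sub_const (L / 3)).pow 2)).add
    (((h.rot.rot.dp ht).sub_const (L / 3)).pow 2)
  have h2 : HasDerivAt (FF a b c x y z L) _ t := h1
  refine h2.congr_deriv ?_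
  push_cast
  ring

theorem sum_sq {p q r L : ℝ} (h : p + q + r = L) :
    (p - q) ^ 2 + (q - r) ^ 2 + (r - p) ^ 2 =
      3 * ((p - L / 3) ^ 2 + (q - L / 3) ^ 2 + (r - L / 3) ^ 2) := by
  subst h
  ring

/-- Near a fixed point the self-dual Weyl curvature vanishes. -/
theorem flat_near (h : XSys 1 a b c x y z T) (hT : 0 < T)
    (hs : ∀ t ∈ Ioo 0 T, pp b c x y z t + pp c a y z x t + pp a b z x y t = L)
    (tx : Tendsto (fun t => t * (x t / a t)) (𝓝[>] 0) (𝓝 2))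
    (ty : Tendsto (fun t => t * (y t / b t)) (𝓝[>] 0) (𝓝 2))
    (tz : Tendsto (fun t => t * (z t / c t)) (𝓝[>] 0) (𝓝 2))
    (p1 : Tendsto (fun t => t ^ 2 * pp b c x y z t) (𝓝[>] 0) (𝓝 0))
    (p2 : Tendsto (fun t => t ^ 2 * pp c a y z x t) (𝓝[>] 0) (𝓝 0))
    (p3 : Tendsto (fun t => t ^ 2 * pp a b z x y t) (𝓝[>] 0) (𝓝 0)) :
    ∃ ε, 0 < ε ∧ ε ≤ T ∧ ∀ t ∈ Ioo 0 ε, FF a b c x y z L t ≤ 0 := by
  have ev : ∀ᶠ t in 𝓝[>] (0 : ℝ), 1 ≤ t * (x t / a t) ∧ 1 ≤ t * (y t / b t) ∧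
      1 ≤ t * (z t / c t) := by
    filter_upwards [tx.eventually (lt_mem_nhds (by norm_num : (1 : ℝ) < 2)),
      ty.eventually (lt_mem_nhds (by norm_num : (1 : ℝ) < 2)),
      tz.eventually (lt_mem_nhds (by norm_num : (1 : ℝ) < 2))] with t h1 h2 h3
    exact ⟨h1.le, h2.le, h3.le⟩
  obtain ⟨ε₀, hε₀, hε₁⟩ := mem_nhdsGT_iff_exists_Ioo_subset.1 ev
  have hε₀' : 0 < ε₀ := hε₀
  refine ⟨min ε₀ T, lt_min hε₀' hT, min_le_right _ _, ?_⟩
  have hsub : ∀ t ∈ Ioo 0 (min ε₀ T), t ∈ Ioo 0 T ∧ (1 ≤ t * (x t / a t) ∧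
      1 ≤ t * (y t / b t) ∧ 1 ≤ t * (z t / c t)) := fun t ht =>
    ⟨⟨ht.1, ht.2.trans_le (min_le_right _ _)⟩, hε₁ ⟨ht.1, ht.2.trans_le (min_le_left _ _)⟩⟩
  have hd : ∀ t ∈ Ioo 0 (min ε₀ T), HasDerivAt (fun r => r ^ 6 * FF a b c x y z L r)
      (6 * t ^ 5 * FF a b c x y z L t + t ^ 6 *
      (-2 * ((pp b c x y z t - pp c a y z x t) ^ 2 * (z t / c t) +
        (pp c a y z x t - pp a b z x y t) ^ 2 * (x t / a t) +
        (pp a b z x y t - pp b c x y z t) ^ 2 * (y t / b t)))) t := by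
    intro t ht
    have h1 := ((hasDerivAt_id t).pow 6).mul (dFF (L := L) h (hsub t ht).1)
    have h2 : HasDerivAt (fun r => r ^ 6 * FF a b c x y z L r) _ t := h1
    refine h2.congr_deriv ?_
    simp only [Pi.pow_apply, id_eq]
    push_cast
    ring
  have hanti : AntitoneOn (fun r => r ^ 6 * FF a b c x y z L r) (Ioo 0 (min ε₀ T)) := by
    apply antitoneOn_of_deriv_nonpos (convex_Ioo _ _)
    · intro τ hτ
      exact (hd τ hτ).continuousAt.continuousWithinAt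
    · intro τ hτ
      rw [interior_Ioo] at hτ
      exact (hd τ hτ).differentiableAt.differentiableWithinAt
    · intro τ hτ
      rw [interior_Ioo] at hτ
      rw [(hd τ hτ).deriv]
      obtain ⟨hτT, g1, g2, g3⟩ := hsub τ hτ
      have hτ0 : 0 < τ := hτ.1
      have e := sum_sq (hs τ hτT)
      have e2 : FF a b c x y z L τ = ((pp b c x y z τ - pp c a y z x τ) ^ 2 +
        (pp c a y z x τ - pp a b z x y τ) ^ 2 + (pp a b z x y τ - pp b c x y z τ) ^ 2) / 3 := by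
        unfold FF
        linarith
      rw [e2]
      generalize pp b c x y z τ - pp c a y z x τ = u at *
      generalize pp c a y z x τ - pp a b z x y τ = v at *
      generalize pp a b z x y τ - pp b c x y z τ = w at *
      generalize x τ / a τ = X at *
      generalize y τ / b τ = Y at *
      generalize z τ / c τ = Z at *
      have k1 : 0 ≤ u ^ 2 * (τ * Z - 1) := mul_nonneg (sq_nonneg _) (by linarith)
      have k2 : 0 ≤ v ^ 2 * (τ * X - 1) := mul_nonneg (sq_nonneg _) (by linarith)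
      have k3 : 0 ≤ w ^ 2 * (τ * Y - 1) := mul_nonneg (sq_nonneg _) (by linarith)
      have k4 : 6 * τ ^ 5 * ((u ^ 2 + v ^ 2 + w ^ 2) / 3) + τ ^ 6 *
          (-2 * (u ^ 2 * Z + v ^ 2 * X + w ^ 2 * Y)) =
          -(2 * τ ^ 5 * (u ^ 2 * (τ * Z - 1) + v ^ 2 * (τ * X - 1) + w ^ 2 * (τ * Y - 1))) := by
        ring
      rw [k4]
      have k5 : 0 ≤ 2 * τ ^ 5 * (u ^ 2 * (τ * Z - 1) + v ^ 2 * (τ * X - 1) +
        w ^ 2 * (τ * Y - 1)) := mul_nonneg (by positivity) (by linarith)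
      linarith
  have hlim : Tendsto (fun r => r ^ 6 * FF a b c x y z L r) (𝓝[>] 0) (𝓝 0) := by
    have hid : Tendsto (fun r : ℝ => r) (𝓝[>] 0) (𝓝 0) :=
      (continuous_id.tendsto 0).mono_left nhdsWithin_le_nhds
    have hq := (hid.pow 2).mul_const (L / 3)
    have h1 := (hid.pow 2).mul ((((p1.sub hq).pow 2).add ((p2.sub hq).pow 2)).add
      ((p3.sub hq).pow 2))
    have e : (0 : ℝ) ^ 2 * ((0 - 0 ^ 2 * (L / 3)) ^ 2 + (0 - 0 ^ 2 * (L / 3)) ^ 2 +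
      (0 - 0 ^ 2 * (L / 3)) ^ 2) = 0 := by ring
    rw [e] at h1
    refine h1.congr fun t => ?_
    unfold FF
    ring
  intro t ht
  have hev : ∀ᶠ s in 𝓝[>] (0 : ℝ), t ^ 6 * FF a b c x y z L t ≤ s ^ 6 * FF a b c x y z L s := by
    filter_upwards [Ioo_mem_nhdsGT ht.1] with s hs'
    exact hanti ⟨hs'.1, hs'.2.trans ht.2⟩ ht hs'.2.le
  have h3 := ge_of_tendsto hlim hev
  have h4 : 0 < t ^ 6 := pow_pos ht.1 6
  by_contra hc
  push Not at hc
  exact absurd h3 (not_le.2 (mul_pos h4 hc))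

/-- The self-dual Weyl curvature vanishes everywhere. -/
theorem flat_all (h : XSys 1 a b c x y z T)
    (hs : ∀ t ∈ Ioo 0 T, pp b c x y z t + pp c a y z x t + pp a b z x y t = L)
    (hn : ∃ ε, 0 < ε ∧ ε ≤ T ∧ ∀ t ∈ Ioo 0 ε, FF a b c x y z L t ≤ 0) :
    ∀ t ∈ Ioo 0 T, FF a b c x y z L t ≤ 0 := by
  obtain ⟨ε, hε, -, hε2⟩ := hn
  intro t ht
  rcases lt_or_ge t ε with h1 | h1
  · exact hε2 t ⟨ht.1, h1⟩
  set s := ε / 2 with hs_def
  have hs0 : 0 < s := by positivity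
  have hst : s ≤ t := by linarith
  have hsub : ∀ τ ∈ Icc s t, τ ∈ Ioo 0 T := fun τ hτ => ⟨hs0.trans_le hτ.1, hτ.2.trans_lt ht.2⟩
  have bd : ∀ f g : ℝ → ℝ, (∀ τ ∈ Ioo 0 T, ContinuousAt f τ) → (∀ τ ∈ Ioo 0 T, ContinuousAt g τ) →
      (∀ τ ∈ Ioo 0 T, 0 < g τ) → ∃ M, ∀ τ ∈ Icc s t, |f τ / g τ| ≤ M := by
    intro f g hf hg hg0
    have hcont : ContinuousOn (fun τ => f τ / g τ) (Icc s t) := fun τ hτ =>
      ((hf τ (hsub τ hτ)).div (hg τ (hsub τ hτ)) (hg0 τ (hsub τ hτ)).ne').continuousWithinAt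
    obtain ⟨M, hM⟩ := isCompact_Icc.exists_bound_of_continuousOn hcont
    exact ⟨M, fun τ hτ => (Real.norm_eq_abs _).symm.trans_le (hM τ hτ)⟩
  obtain ⟨M1, hM1⟩ := bd x a (fun τ hτ => (h.dx τ hτ).continuousAt)
    (fun τ hτ => (h.da τ hτ).continuousAt) h.ap
  obtain ⟨M2, hM2⟩ := bd y b (fun τ hτ => (h.dy τ hτ).continuousAt)
    (fun τ hτ => (h.db τ hτ).continuousAt) h.bp
  obtain ⟨M3, hM3⟩ := bd z c (fun τ hτ => (h.dz τ hτ).continuousAt)
    (fun τ hτ => (h.dc τ hτ).continuousAt) h.cp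
  set M := max M1 (max M2 M3) with hM
  refine gron (K := 6 * M) hst (fun τ hτ => dFF (L := L) h (hsub τ hτ)) (hε2 s ⟨hs0, by linarith⟩) ?_
  intro τ hτ
  have hτ' : τ ∈ Icc s t := ⟨hτ.1.le, hτ.2.le⟩
  have a1 : -M ≤ x τ / a τ := by
    have := (abs_le.1 (hM1 τ hτ')).1
    have h2 : M1 ≤ M := le_max_left _ _
    linarith
  have a2 : -M ≤ y τ / b τ := by
    have := (abs_le.1 (hM2 τ hτ')).1
    have h2 : M2 ≤ M := (le_max_left _ _).trans (le_max_right _ _)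
    linarith
  have a3 : -M ≤ z τ / c τ := by
    have := (abs_le.1 (hM3 τ hτ')).1
    have h2 : M3 ≤ M := (le_max_right _ _).trans (le_max_right _ _)
    linarith
  have e := sum_sq (hs τ (hsub τ hτ'))
  have e2 : FF a b c x y z L τ = ((pp b c x y z τ - pp c a y z x τ) ^ 2 +
    (pp c a y z x τ - pp a b z x y τ) ^ 2 + (pp a b z x y τ - pp b c x y z τ) ^ 2) / 3 := by
    unfold FF
    linarith
  rw [e2]
  generalize pp b c x y z τ - pp c a y z x τ = u at *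
  generalize pp c a y z x τ - pp a b z x y τ = v at *
  generalize pp a b z x y τ - pp b c x y z τ = w at *
  generalize x τ / a τ = X at *
  generalize y τ / b τ = Y at *
  generalize z τ / c τ = Z at *
  have k1 : 0 ≤ u ^ 2 * (Z + M) := mul_nonneg (sq_nonneg _) (by linarith)
  have k2 : 0 ≤ v ^ 2 * (X + M) := mul_nonneg (sq_nonneg _) (by linarith)
  have k3 : 0 ≤ w ^ 2 * (Y + M) := mul_nonneg (sq_nonneg _) (by linarith)
  nlinarith [k1, k2, k3]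

theorem NData.flat {a b c : ℝ → ℝ} {T L : ℝ} (h : NData a b c T L) : ∀ t ∈ Ioo 0 T,
    pp b c (xx 1 a b c) (xx 1 b c a) (xx 1 c a b) t = L / 3 ∧
    pp c a (xx 1 b c a) (xx 1 c a b) (xx 1 a b c) t = L / 3 ∧
    pp a b (xx 1 c a b) (xx 1 a b c) (xx 1 b c a) t = L / 3 := by
  have hX := h.xsys (s := 1) (Or.inl rfl)
  have hsum : ∀ t ∈ Ioo 0 T, pp b c (xx 1 a b c) (xx 1 b c a) (xx 1 c a b) t +
      pp c a (xx 1 b c a) (xx 1 c a b) (xx 1 a b c) t +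
      pp a b (xx 1 c a b) (xx 1 a b c) (xx 1 b c a) t = L := fun t ht =>
    sum_pp (Or.inl rfl) (h.ap t ht).ne' (h.bp t ht).ne' (h.cp t ht).ne' (h.e0 t ht)
  have key := flat_all hX hsum (flat_near hX h.hT hsum h.tx h.rot.tx h.rot.rot.tx h.t2p h.rot.t2p
    h.rot.rot.t2p)
  intro t ht
  have h1 := key t ht
  unfold FF at h1
  have q1 := sq_nonneg (pp b c (xx 1 a b c) (xx 1 b c a) (xx 1 c a b) t - L / 3)
  have q2 := sq_nonneg (pp c a (xx 1 b c a) (xx 1 c a b) (xx 1 a b c) t - L / 3)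
  have q3 := sq_nonneg (pp a b (xx 1 c a b) (xx 1 a b c) (xx 1 b c a) t - L / 3)
  refine ⟨?_, ?_, ?_⟩
  · have : (pp b c (xx 1 a b c) (xx 1 b c a) (xx 1 c a b) t - L / 3) ^ 2 = 0 := by linarith
    have := pow_eq_zero_iff (two_ne_zero) |>.1 this
    linarith
  · have : (pp c a (xx 1 b c a) (xx 1 c a b) (xx 1 a b c) t - L / 3) ^ 2 = 0 := by linarith
    have := pow_eq_zero_iff (two_ne_zero) |>.1 this
    linarith
  · have : (pp a b (xx 1 c a b) (xx 1 a b c) (xx 1 b c a) t - L / 3) ^ 2 = 0 := by linarith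
    have := pow_eq_zero_iff (two_ne_zero) |>.1 this
    linarith

end Pool.Agent.S4Nut
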