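import Pool.Agent.S4Nut.Flat

set_option autoImplicit false

namespace Pool.Agent.S4Nut

open Set Filter Topology Pool.Agent.H8S4

variable {a b c : ℝ → ℝ} {T L : ℝ}

/-- All lengths are harmonic oscillations. -/
theorem NData.osc (h : NData a b c T L) : ∀ t ∈ Ioo 0 T,
    deriv (deriv a) t = -(L / 3) * a t := by
  intro t ht
  have hX := h.xsys (s := 1) (Or.inl rfl)
  have hY := h.xsys (s := -1) (Or.inr rfl)
  have hflat := (h.flat t ht).1
  have hm := h.mirror
  have htm : T - t ∈ Ioo 0 T := ⟨by linarith [ht.2], by linarith [ht.1]⟩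
  have hmf := (hm.flat (T - t) htm).1
  have e1 : xx 1 (fun t => a (T - t)) (fun t => b (T - t)) (fun t => c (T - t)) (T - t)
      = xx (-1) a b c t := by rw [xx_mirror, sub_sub_cancel]
  have e2 : xx 1 (fun t => b (T - t)) (fun t => c (T - t)) (fun t => a (T - t)) (T - t)
      = xx (-1) b c a t := by rw [xx_mirror, sub_sub_cancel]
  have e3 : xx 1 (fun t => c (T - t)) (fun t => a (T - t)) (fun t => b (T - t)) (T - t)
      = xx (-1) c a b t := by rw [xx_mirror, sub_sub_cancel]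
  have f1 : pp b c (xx (-1) a b c) (xx (-1) b c a) (xx (-1) c a b) t = L / 3 := by
    rw [← hmf]
    unfold pp
    rw [e1, e2, e3]
    simp only [sub_sub_cancel]
  have d1 := hX.dx t ht
  have d2 := hY.dx t ht
  rw [hflat] at d1
  rw [f1] at d2
  have d3 : HasDerivAt (fun r => xx 1 a b c r - xx (-1) a b c r) _ t := d1.sub d2
  have e4 : (fun r => xx 1 a b c r - xx (-1) a b c r) = fun r => 2 * deriv a r := by
    funext r; unfold xx; ring
  rw [e4] at d3
  have hd' : DifferentiableAt ℝ (deriv a) t :=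
    ((h.cA.deriv' : ContDiff ℝ 1 (deriv a)).differentiable (by norm_num)) t
  have d4 := d3.unique (hd'.hasDerivAt.const_mul 2)
  linarith

theorem NData.L_pos (h : NData a b c T L) : 0 < L := by
  by_contra hL
  push Not at hL
  have hc : Continuous (deriv a) := (h.cA.deriv' : ContDiff ℝ 1 (deriv a)).continuous
  have hd : Differentiable ℝ (deriv a) :=
    (h.cA.deriv' : ContDiff ℝ 1 (deriv a)).differentiable (by norm_num)
  have hmono : MonotoneOn (deriv a) (Icc 0 T) := by
    apply monotoneOn_of_deriv_nonneg (convex_Icc 0 T) hc.continuousOn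
      (fun t _ => (hd t).differentiableWithinAt)
    intro t ht
    rw [interior_Icc] at ht
    rw [h.osc t ht]
    have := h.ap t ht
    exact mul_nonneg (by linarith) this.le
  have h1 := hmono (left_mem_Icc.2 h.hT.le) (right_mem_Icc.2 h.hT.le) h.hT.le
  rw [h.a1, h.aT1] at h1
  norm_num at h1

theorem NData.form (h : NData a b c T L) {ρ : ℝ} (hρ : 0 < ρ) (hL : L = 3 / ρ ^ 2) :
    ∀ t ∈ Icc 0 T, a t = ρ / 2 * Real.sin (t / ρ) := by
  have hA : ∀ t ∈ Ioo 0 T, deriv (deriv a) t = -((1 / ρ) ^ 2) * a t := by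
    intro t ht
    rw [h.osc t ht, hL]
    congr 1
    field_simp
  have sA := osc_solve h.cA hA
  rw [h.a0, h.a1] at sA
  intro t ht
  have := sA t ht
  rw [show 1 / ρ * t = t / ρ by ring] at this
  field_simp at this
  linarith

theorem NData.solve (h : NData a b c T L) : ∃ ρ : ℝ, 0 < ρ ∧ L = 3 / ρ ^ 2 ∧ T = ρ * Real.pi ∧
    ∀ t ∈ Icc 0 T, a t = ρ / 2 * Real.sin (t / ρ) ∧ b t = ρ / 2 * Real.sin (t / ρ) ∧
      c t = ρ / 2 * Real.sin (t / ρ) := by
  have hL := h.L_pos
  have hT := h.hT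
  set ρ := Real.sqrt (3 / L) with hρ
  have hρ0 : 0 < ρ := Real.sqrt_pos.2 (by positivity)
  have hρ2 : ρ ^ 2 = 3 / L := Real.sq_sqrt (by positivity)
  have hL3 : L = 3 / ρ ^ 2 := by
    rw [hρ2]
    field_simp
  have fa := h.form hρ0 hL3
  have fb := h.rot.form hρ0 hL3
  have fc := h.rot.rot.form hρ0 hL3
  refine ⟨ρ, hρ0, hL3, ?_, fun t ht => ⟨fa t ht, fb t ht, fc t ht⟩⟩
  have hTm : T ∈ Icc 0 T := right_mem_Icc.2 hT.le
  have hpi := Real.pi_pos
  have hs : Real.sin (T / ρ) = 0 := by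
    have h1 := fa T hTm
    rw [h.aT] at h1
    have h2 : ρ / 2 ≠ 0 := by positivity
    exact (mul_eq_zero.1 h1.symm).resolve_left h2
  have hTρ0 : 0 < T / ρ := div_pos hT hρ0
  have hle : T / ρ ≤ Real.pi := by
    by_contra hc
    push Not at hc
    have h2 : ρ * Real.pi ∈ Ioo 0 T := by
      refine ⟨by positivity, ?_⟩
      rw [lt_div_iff₀ hρ0] at hc
      linarith
    have h4 := h.ap _ h2
    rw [fa _ ⟨h2.1.le, h2.2.le⟩, mul_div_cancel_left₀ _ hρ0.ne', Real.sin_pi, mul_zero] at h4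
    exact lt_irrefl _ h4
  have hTρ : T / ρ = Real.pi := by
    rcases hle.lt_or_eq with h1 | h1
    · exact absurd hs (Real.sin_pos_of_pos_of_lt_pi hTρ0 h1).ne'
    · exact h1
  rw [div_eq_iff hρ0.ne'] at hTρ
  rw [hTρ]
  ring

end Pool.Agent.S4Nut
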